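import Pool.Agent.Helper30.BG.Goals

/-!
# MP_66e6f4_an, project BG: packet MV (mean value property with a polynomial kernel)
-/

open InnerProductSpace Metric Set Filter Topology MeasureTheory
open scoped ContDiff Laplacian

namespace Pool.Agent.Helper89.BG

open Pool.Agent.Helper30.BG

/-- powers of the positive part are differentiable -/
theorem hasDerivAt_pos (n : ℕ) (hn : 2 ≤ n) (t : ℝ) :
    HasDerivAt (fun s : ℝ => (max 0 s) ^ n) (n * (max 0 t) ^ (n - 1)) t := by
  rcases lt_trichotomy t 0 with h | h | h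
  · have e : (fun s : ℝ => (max 0 s) ^ n) =ᶠ[𝓝 t] fun _ => (0 : ℝ) := by
      filter_upwards [isOpen_Iio.mem_nhds h] with s hs
      rw [max_eq_left (le_of_lt hs), zero_pow (by omega)]
    rw [max_eq_left h.le, zero_pow (by omega), mul_zero]
    exact (hasDerivAt_const t (0 : ℝ)).congr_of_eventuallyEq e
  · subst h
    rw [max_self, zero_pow (by omega), mul_zero]
    rw [hasDerivAt_iff_isLittleO_nhds_zero]
    have h1 : (fun s : ℝ => (max 0 (0 + s)) ^ n - (max 0 (0 : ℝ)) ^ n - s • (0 : ℝ)) =O[𝓝 0]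
        fun s : ℝ => s ^ n := by
      refine Asymptotics.IsBigO.of_bound 1 (Eventually.of_forall fun s => ?_)
      rw [max_self, zero_pow (by omega), smul_zero, sub_zero, sub_zero, zero_add, one_mul, norm_pow,
        norm_pow]
      refine pow_le_pow_left₀ (norm_nonneg _) ?_ n
      rw [Real.norm_eq_abs, Real.norm_eq_abs, abs_of_nonneg (le_max_left _ _)]
      exact max_le (abs_nonneg _) (le_abs_self _)
    exact h1.trans_isLittleO (Asymptotics.isLittleO_pow_id (by omega))
  · have e : (fun s : ℝ => (max 0 s) ^ n) =ᶠ[𝓝 t] fun s => s ^ n := by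
      filter_upwards [isOpen_Ioi.mem_nhds h] with s hs
      rw [max_eq_right (le_of_lt hs)]
    rw [max_eq_right h.le]
    exact (hasDerivAt_pow n t).congr_of_eventuallyEq e

/-- the truncated quadratic -/
noncomputable def PP (z : E3) : ℝ := max 0 (1 - ‖z‖ ^ 2)

theorem PP_cont : Continuous PP := by unfold PP; fun_prop

theorem PP_nn (z : E3) : 0 ≤ PP z := le_max_left _ _

theorem PP_zero {z : E3} (hz : 1 ≤ ‖z‖) : PP z = 0 := by
  unfold PP
  refine max_eq_left ?_
  nlinarith

theorem PP_pos {z : E3} (hz : ‖z‖ < 1) : 0 < PP z := by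
  unfold PP
  refine lt_max_of_lt_right ?_
  nlinarith [norm_nonneg z]

/-- the differential of the quadratic -/
noncomputable def gq (z : E3) : E3 →L[ℝ] ℝ := -((2 : ℝ) • (innerSL ℝ z : E3 →L[ℝ] ℝ))

theorem gq_cont : Continuous gq := by
  unfold gq
  exact ((innerSL ℝ (E := E3)).continuous.const_smul (2 : ℝ)).neg

theorem gq_eb (z : E3) (i : Fin 3) : gq z (eb i) = -(2 * z i) := by
  have h2 : (innerSL ℝ z : E3 →L[ℝ] ℝ) (eb i) = z i := by
    rw [innerSL_apply_apply, real_inner_comm]
    unfold eb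
    rw [EuclideanSpace.inner_single_left]
    simp
  unfold gq
  rw [neg_apply, smul_apply, h2, smul_eq_mul]

theorem hasFDerivAt_q (z : E3) : HasFDerivAt (fun z : E3 => 1 - ‖z‖ ^ 2) (gq z) z := by
  have h := ((hasStrictFDerivAt_norm_sq z).hasFDerivAt).const_sub 1
  refine h.congr_fderiv ?_
  unfold gq
  ext y
  simp [two_smul]

theorem hasFDerivAt_PP (n : ℕ) (hn : 2 ≤ n) (z : E3) :
    HasFDerivAt (fun z : E3 => PP z ^ n) (((n : ℝ) * PP z ^ (n - 1)) • gq z) z := by
  have h := HasDerivAt.comp_hasFDerivAt (h₂ := fun s : ℝ => (max 0 s) ^ n)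
    (f := fun z : E3 => 1 - ‖z‖ ^ 2) z (hasDerivAt_pos n hn (1 - ‖z‖ ^ 2)) (hasFDerivAt_q z)
  exact h

theorem contDiff_PP (n : ℕ) (hn : 2 ≤ n) : ContDiff ℝ 1 (fun z : E3 => PP z ^ n) := by
  rw [contDiff_one_iff_fderiv]
  refine ⟨fun z => (hasFDerivAt_PP n hn z).differentiableAt, ?_⟩
  have h1 : fderiv ℝ (fun z : E3 => PP z ^ n) = fun z => ((n : ℝ) * PP z ^ (n - 1)) • gq z :=
    funext fun z => (hasFDerivAt_PP n hn z).fderiv
  rw [h1]
  exact (continuous_const.mul (PP_cont.pow _)).smul gq_cont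

theorem supp_PP (n : ℕ) (hn : n ≠ 0) : HasCompactSupport (fun z => PP z ^ n) := by
  refine HasCompactSupport.of_support_subset_isCompact (isCompact_closedBall (0 : E3) 1) ?_
  intro z hz
  rw [mem_closedBall, dist_zero_right]
  by_contra h
  push Not at h
  apply hz
  change PP z ^ n = 0
  rw [PP_zero h.le, zero_pow hn]

theorem int_pos : 0 < ∫ z, PP z ^ 2 := by
  have hc : Continuous (fun z => PP z ^ 2) := PP_cont.pow 2
  refine hc.integral_pos_of_hasCompactSupport_nonneg_nonzero (supp_PP 2 two_ne_zero)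
    (fun z => by positivity) (x := 0) ?_
  have := PP_pos (z := 0) (by simp)
  positivity

/-- the kernel -/
noncomputable def psi (c : ℝ) (z : E3) : ℝ := c * PP z ^ 2

/-- its potential -/
noncomputable def Psi (c : ℝ) (z : E3) : ℝ := -(c / 6) * PP z ^ 3

theorem psi_cont (c : ℝ) : Continuous (psi c) := continuous_const.mul (PP_cont.pow 2)

theorem psi_supp (c : ℝ) : HasCompactSupport (psi c) := (supp_PP 2 two_ne_zero).mul_left

theorem psi_nn {c : ℝ} (hc : 0 ≤ c) (z : E3) : 0 ≤ psi c z := mul_nonneg hc (pow_nonneg (PP_nn z) 2)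

theorem psi_zero (c : ℝ) {z : E3} (hz : 1 ≤ ‖z‖) : psi c z = 0 := by
  unfold psi; rw [PP_zero hz]; simp

theorem Psi_zero (c : ℝ) {z : E3} (hz : 1 ≤ ‖z‖) : Psi c z = 0 := by
  unfold Psi; rw [PP_zero hz]; simp

theorem Psi_C1 (c : ℝ) : ContDiff ℝ 1 (Psi c) := contDiff_const.mul (contDiff_PP 3 (by norm_num))

theorem Psi_supp (c : ℝ) : HasCompactSupport (Psi c) := (supp_PP 3 (by norm_num)).mul_left

theorem Psi_fderiv (c : ℝ) (z : E3) (i : Fin 3) : fderiv ℝ (Psi c) z (eb i) = psi c z * z i := by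
  have h1 : HasFDerivAt (Psi c) ((-(c / 6)) • ((((3 : ℕ) : ℝ) * PP z ^ (3 - 1)) • gq z)) z :=
    (hasFDerivAt_PP 3 (by norm_num) z).const_mul (-(c / 6))
  rw [h1.fderiv, smul_apply, smul_apply, gq_eb, smul_eq_mul, smul_eq_mul]
  unfold psi
  norm_num
  ring

theorem affC (x : E3) (s : ℝ) : Continuous (fun z : E3 => x + s • z) := by fun_prop

theorem pd_C1 {w : E3 → ℝ} (hw : ContDiff ℝ 2 w) (i : Fin 3) : ContDiff ℝ 1 (pd i w) :=
  (hw.fderiv_right (m := 1) (by norm_num)).clm_apply contDiff_const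

theorem pd_aff {w : E3 → ℝ} (hw : ContDiff ℝ 2 w) (i : Fin 3) (x z : E3) (s : ℝ) :
    HasFDerivAt (fun z => pd i w (x + s • z))
      ((fderiv ℝ (pd i w) (x + s • z)).comp (s • ContinuousLinearMap.id ℝ E3)) z := by
  have hA : HasFDerivAt (fun z : E3 => x + s • z) (s • ContinuousLinearMap.id ℝ E3) z :=
    ((hasFDerivAt_id z).const_smul s).const_add x
  exact HasFDerivAt.comp (g := pd i w) (f := fun z : E3 => x + s • z) z
    (((pd_C1 hw i).differentiable (by norm_num)) (x + s • z)).hasFDerivAt hA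

theorem pd_aff_eb {w : E3 → ℝ} (hw : ContDiff ℝ 2 w) (i : Fin 3) (x z : E3) (s : ℝ) :
    fderiv ℝ (fun z => pd i w (x + s • z)) z (eb i) =
      s * fderiv ℝ (pd i w) (x + s • z) (eb i) := by
  rw [(pd_aff hw i x z s).fderiv]
  simp

theorem int1 {w : E3 → ℝ} (hw : ContDiff ℝ 2 w) (c : ℝ) (i : Fin 3) (x : E3) (s : ℝ) :
    Integrable (fun z : E3 => s * fderiv ℝ (pd i w) (x + s • z) (eb i) * Psi c z) := by
  refine Continuous.integrable_of_hasCompactSupport ?_ (Psi_supp c).mul_left
  have h2 : Continuous (fderiv ℝ (pd i w)) := (pd_C1 hw i).continuous_fderiv (by norm_num)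
  exact (continuous_const.mul ((h2.comp (affC x s)).clm_apply continuous_const)).mul
    (Psi_C1 c).continuous

theorem int2 {w : E3 → ℝ} (hw : ContDiff ℝ 2 w) (c : ℝ) (i : Fin 3) (x : E3) (s : ℝ) :
    Integrable (fun z : E3 => pd i w (x + s • z) * (psi c z * z i)) := by
  refine Continuous.integrable_of_hasCompactSupport ?_ ((psi_supp c).mul_right.mul_left)
  exact ((pd_C1 hw i).continuous.comp (affC x s)).mul ((psi_cont c).mul (by fun_prop))

theorem parts {w : E3 → ℝ} (hw : ContDiff ℝ 2 w) (c : ℝ) (i : Fin 3) (x : E3) (s : ℝ) :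
    ∫ z, pd i w (x + s • z) * (psi c z * z i) =
      -∫ z, s * fderiv ℝ (pd i w) (x + s • z) (eb i) * Psi c z := by
  have h1 := integral_mul_fderiv_eq_neg_fderiv_mul_of_integrable (μ := (volume : Measure E3))
    (f := fun z => pd i w (x + s • z)) (g := Psi c) (v := eb i)
    (by simp only [pd_aff_eb hw]; exact int1 hw c i x s)
    (by simp only [Psi_fderiv]; exact int2 hw c i x s)
    (Continuous.integrable_of_hasCompactSupport
      (((pd_C1 hw i).continuous.comp (affC x s)).mul (Psi_C1 c).continuous) (Psi_supp c).mul_left)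
    (fun z _ => (pd_aff hw i x z s).differentiableAt)
    (fun z _ => (Psi_C1 c).differentiable (by norm_num) z)
  simp only [Psi_fderiv, pd_aff_eb hw] at h1
  exact h1

theorem expand (w : E3 → ℝ) (c : ℝ) (x z : E3) (s : ℝ) :
    psi c z * fderiv ℝ w (x + s • z) z = ∑ i, pd i w (x + s • z) * (psi c z * z i) := by
  have h1 : z = ∑ i, z i • eb i := by
    ext j
    simp [eb, Pi.single_apply]
  have h2 : ∀ A : E3 →L[ℝ] ℝ, A z = ∑ i, z i * A (eb i) := by
    intro A
    conv_lhs => rw [h1]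
    rw [map_sum]
    refine Finset.sum_congr rfl fun i _ => ?_
    rw [map_smul, smul_eq_mul]
  rw [h2, Finset.mul_sum]
  refine Finset.sum_congr rfl fun i _ => ?_
  unfold pd
  ring

theorem zero_der {w : E3 → ℝ} (hw : ContDiff ℝ 2 w) (c : ℝ) (x : E3) {r : ℝ} (hr : 0 < r)
    (hlap : ∀ y ∈ ball x r, Δ w y = 0) {s : ℝ} (hs : s ∈ Icc (0 : ℝ) r) :
    ∫ z, psi c z * fderiv ℝ w (x + s • z) z = 0 := by
  have h3 : ∀ z : E3, ∑ i, s * fderiv ℝ (pd i w) (x + s • z) (eb i) * Psi c z = 0 := by
    intro z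
    rw [← Finset.sum_mul, ← Finset.mul_sum, ← lap_eq hw.contDiffAt]
    by_cases hz : 1 ≤ ‖z‖
    · rw [Psi_zero c hz, mul_zero]
    · push Not at hz
      rw [hlap]
      · simp
      · rw [mem_ball, dist_eq_norm, add_sub_cancel_left, norm_smul, Real.norm_eq_abs,
          abs_of_nonneg hs.1]
        calc s * ‖z‖ ≤ r * ‖z‖ := mul_le_mul_of_nonneg_right hs.2 (norm_nonneg _)
          _ < r * 1 := mul_lt_mul_of_pos_left hz hr
          _ = r := mul_one r
  simp only [expand]
  rw [integral_finsetSum _ (fun i _ => int2 hw c i x s)]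
  simp only [parts hw]
  rw [Finset.sum_neg_distrib, neg_eq_zero, ← integral_finsetSum _ (fun i _ => int1 hw c i x s)]
  simp only [h3, integral_zero]

theorem der {w : E3 → ℝ} (hw : ContDiff ℝ 2 w) {c : ℝ} (hc : 0 ≤ c) (x : E3) (s : ℝ) :
    HasDerivAt (fun s : ℝ => ∫ z, psi c z * w (x + s • z))
      (∫ z, psi c z * fderiv ℝ w (x + s • z) z) s := by
  have hwd : Differentiable ℝ w := hw.differentiable (by norm_num)
  have hwf : Continuous (fderiv ℝ w) := hw.continuous_fderiv (by norm_num)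
  obtain ⟨C, hC⟩ := (isCompact_closedBall x (|s| + 1)).exists_bound_of_continuousOn
    (f := fderiv ℝ w) hwf.continuousOn
  have hC0 : 0 ≤ C := (norm_nonneg _).trans (hC x (mem_closedBall_self (by positivity)))
  refine (hasDerivAt_integral_of_dominated_loc_of_deriv_le (μ := (volume : Measure E3)) (x₀ := s)
    (s := ball s 1) (F := fun s z => psi c z * w (x + s • z))
    (F' := fun s z => psi c z * fderiv ℝ w (x + s • z) z)
    (bound := fun z => psi c z * C) (ball_mem_nhds s one_pos) ?_ ?_ ?_ ?_ ?_ ?_).2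
  · exact Eventually.of_forall fun t => Continuous.aestronglyMeasurable
      ((psi_cont c).mul (hw.continuous.comp (affC x t)))
  · exact Continuous.integrable_of_hasCompactSupport
      ((psi_cont c).mul (hw.continuous.comp (affC x s))) (psi_supp c).mul_right
  · refine Continuous.aestronglyMeasurable ?_
    exact (psi_cont c).mul ((hwf.comp (affC x s)).clm_apply continuous_id)
  · refine Eventually.of_forall fun z t ht => ?_
    rw [norm_mul, Real.norm_of_nonneg (psi_nn hc z)]
    by_cases hz : 1 ≤ ‖z‖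
    · rw [psi_zero c hz]; simp
    · push Not at hz
      refine mul_le_mul_of_nonneg_left ?_ (psi_nn hc z)
      refine (ContinuousLinearMap.le_opNorm _ _).trans ?_
      have h1 : ‖fderiv ℝ w (x + t • z)‖ ≤ C := by
        refine hC _ ?_
        rw [mem_closedBall, dist_eq_norm, add_sub_cancel_left, norm_smul, Real.norm_eq_abs]
        have h2 : |t| ≤ |s| + 1 := by
          rw [mem_ball, Real.dist_eq] at ht
          have := abs_sub_abs_le_abs_sub t s
          linarith
        calc |t| * ‖z‖ ≤ |t| * 1 := mul_le_mul_of_nonneg_left hz.le (abs_nonneg _)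
          _ ≤ |s| + 1 := by linarith
      calc ‖fderiv ℝ w (x + t • z)‖ * ‖z‖ ≤ C * 1 := mul_le_mul h1 hz.le (norm_nonneg _) hC0
        _ = C := mul_one C
  · exact Continuous.integrable_of_hasCompactSupport ((psi_cont c).mul continuous_const)
      (psi_supp c).mul_right
  · refine Eventually.of_forall fun z t _ => ?_
    have h1 : HasDerivAt (fun t : ℝ => x + t • z) z t := by
      have := ((hasDerivAt_id t).smul_const z).const_add x
      simpa using this
    exact ((hwd _).hasFDerivAt.comp_hasDerivAt t h1).const_mul _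

theorem mv : S_MV := by
  obtain ⟨c, hc⟩ : ∃ c : ℝ, c = (∫ z, PP z ^ 2)⁻¹ := ⟨_, rfl⟩
  have hcpos : 0 < c := by rw [hc]; exact inv_pos.2 int_pos
  have hone : ∫ z, psi c z = 1 := by
    change ∫ z, c * PP z ^ 2 = 1
    rw [integral_const_mul, hc, inv_mul_cancel₀ int_pos.ne']
  refine ⟨psi c, contDiff_const.mul (contDiff_PP 2 le_rfl), psi_supp c, psi_nn hcpos.le,
    fun z hz => psi_zero c hz, fun z hz => mul_pos hcpos (pow_pos (PP_pos hz) 2), hone, ?_⟩
  intro w x r hr hw hlap
  have hconst : (fun s : ℝ => ∫ z, psi c z * w (x + s • z)) r =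
      (fun s : ℝ => ∫ z, psi c z * w (x + s • z)) 0 := by
    refine constant_of_has_deriv_right_zero (a := 0) (b := r)
      (fun s _ => (der hw hcpos.le x s).continuousAt.continuousWithinAt) (fun s hs => ?_) r
      ⟨hr.le, le_rfl⟩
    have := (der hw hcpos.le x s).hasDerivWithinAt (s := Ici s)
    rwa [zero_der hw c x hr hlap ⟨hs.1, hs.2.le⟩] at this
  beta_reduce at hconst
  rw [hconst]
  simp only [zero_smul, add_zero]
  rw [integral_mul_const, hone, one_mul]

end Pool.Agent.Helper89.BG
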